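import Pool.Agent.H85.FD.AdmQ
import Pool.Agent.H31.FD.AdmK
import Pool.Agent.H55.AB.RelFin
import Pool.Agent.H29.AB.Iface

/-!
# The splitting criterion for the residue degrees, relative to a real abelian field
-/

open Polynomial NumberField IsDedekindDomain H9FC H9AB

namespace H31AB

open H85FD H55AB

theorem frob_conj_field {k0 k Ω : Type*} [Field k0] [Finite k0] [Field k] [Finite k] [Algebra k0 k]
    [Field Ω] (f g : k →+* Ω) (h : f.comp (algebraMap k0 k) = g.comp (algebraMap k0 k)) :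
    ∃ n : ℕ, ∀ x, g x = f x ^ Nat.card k0 ^ n := by
  classical
  letI : Fintype k0 := Fintype.ofFinite k0
  letI : Algebra k0 Ω := (f.comp (algebraMap k0 k)).toAlgebra
  let F : k →ₐ[k0] Ω := { f with commutes' := fun r => rfl }
  let G : k →ₐ[k0] Ω := { g with commutes' := fun r => (congrArg (fun h => h r) h).symm }
  have : Module.Finite k0 k := Module.Finite.of_finite
  have hinj : Function.Injective
      (fun n : Fin (Module.finrank k0 k) => F.comp (FiniteField.frobeniusAlgHom k0 k ^ n.1)) := by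
    intro m n hmn
    apply (FiniteField.bijective_frobeniusAlgHom_pow k0 k).1
    apply AlgHom.ext
    intro x
    have h1 := DFunLike.congr_fun hmn x
    exact F.toRingHom.injective h1
  have hbij := hinj.bijective_of_nat_card_le (by
    rw [Nat.card_fin]
    exact card_algHom_le_finrank k0 k Ω)
  obtain ⟨n, hn⟩ := hbij.2 G
  refine ⟨n.1, fun x => ?_⟩
  have h1 := DFunLike.congr_fun hn x
  have h2 : ∀ m : ℕ, (FiniteField.frobeniusAlgHom k0 k ^ m) x = x ^ Nat.card k0 ^ m := by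
    intro m
    induction m with
    | zero => simp
    | succ m ih =>
      rw [pow_succ', AlgHom.mul_apply, ih, FiniteField.coe_frobeniusAlgHom, Nat.card_eq_fintype_card]
      show (x ^ Fintype.card k0 ^ m) ^ Fintype.card k0 = x ^ Fintype.card k0 ^ (m + 1)
      rw [← pow_mul, pow_succ]
  have h3 : F ((FiniteField.frobeniusAlgHom k0 k ^ n.1) x) = G x := h1
  rw [h2, map_pow] at h3
  exact h3.symm

section

variable {F K : Type*} [Field F] [NumberField F] [Field K] [NumberField K] [Algebra F K]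
  (p : ℕ) [Fact p.Prime] {Ω : Type*} [Field Ω] [CharP Ω p]

include p

/-- two homomorphisms of `𝓞 K` with the same restriction to `𝓞 F` and the same kernel are conjugate under
a power of the Frobenius automorphism of the residue field of `F` -/
theorem frob_conj_rel (w : 𝓞 F →+* Ω) (ψ φ : 𝓞 K →+* Ω)
    (h1 : ψ.comp (algebraMap (𝓞 F) (𝓞 K)) = w) (h2 : φ.comp (algebraMap (𝓞 F) (𝓞 K)) = w)
    (h : RingHom.ker ψ = RingHom.ker φ) :
    ∃ n : ℕ, ∀ x, φ x = ψ x ^ Nat.card (𝓞 F ⧸ RingHom.ker w) ^ n := by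
  obtain ⟨hne, hmax, hfin, hchar, -, -⟩ :=
    H52FD.prime_data (p := p) (RingHom.ker ψ) (RingHom.ker_isPrime ψ) (H52FD.p_mem_ker ψ)
  obtain ⟨hne', hmax', hfin', hchar', -, -⟩ :=
    H52FD.prime_data (p := p) (RingHom.ker w) (RingHom.ker_isPrime w) (H52FD.p_mem_ker w)
  letI : Field (𝓞 K ⧸ RingHom.ker ψ) := Ideal.Quotient.field _
  letI : Field (𝓞 F ⧸ RingHom.ker w) := Ideal.Quotient.field _
  have hlies : (RingHom.ker ψ).LiesOver (RingHom.ker w) := ⟨by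
    rw [Ideal.under, RingHom.comap_ker, h1]⟩
  let f : (𝓞 K ⧸ RingHom.ker ψ) →+* Ω := Ideal.Quotient.lift _ ψ fun a ha => ha
  let g : (𝓞 K ⧸ RingHom.ker ψ) →+* Ω := Ideal.Quotient.lift _ φ fun a ha => by
    rw [h] at ha
    exact ha
  obtain ⟨n, hn⟩ := frob_conj_field (k0 := 𝓞 F ⧸ RingHom.ker w) f g (by
    apply Ideal.Quotient.ringHom_ext
    ext x
    show ψ (algebraMap (𝓞 F) (𝓞 K) x) = φ (algebraMap (𝓞 F) (𝓞 K) x)
    rw [← RingHom.comp_apply, ← RingHom.comp_apply, h1, h2])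
  exact ⟨n, fun x => hn (Ideal.Quotient.mk _ x)⟩

theorem pow_inertia_rel (w : 𝓞 F →+* Ω) (ψ : 𝓞 K →+* Ω)
    (h1 : ψ.comp (algebraMap (𝓞 F) (𝓞 K)) = w) (x : 𝓞 K) :
    ψ x ^ Nat.card (𝓞 F ⧸ RingHom.ker w) ^ (RingHom.ker ψ).inertiaDeg (𝓞 F) = ψ x := by
  obtain ⟨hne, hmax, hfin, hchar, -, -⟩ :=
    H52FD.prime_data (p := p) (RingHom.ker ψ) (RingHom.ker_isPrime ψ) (H52FD.p_mem_ker ψ)
  obtain ⟨hne', hmax', hfin', hchar', -, -⟩ :=
    H52FD.prime_data (p := p) (RingHom.ker w) (RingHom.ker_isPrime w) (H52FD.p_mem_ker w)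
  have hlies : (RingHom.ker ψ).LiesOver (RingHom.ker w) := ⟨by
    rw [Ideal.under, RingHom.comap_ker, h1]⟩
  have hcard : Nat.card (𝓞 K ⧸ RingHom.ker ψ) =
      Nat.card (𝓞 F ⧸ RingHom.ker w) ^ (RingHom.ker ψ).inertiaDeg (𝓞 F) := by
    rw [Ideal.inertiaDeg_eq_of_isMaximal (RingHom.ker w) (RingHom.ker ψ)]
    letI : Field (𝓞 F ⧸ RingHom.ker w) := Ideal.Quotient.field _
    have : Module.Finite (𝓞 F ⧸ RingHom.ker w) (𝓞 K ⧸ RingHom.ker ψ) := Module.Finite.of_finite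
    exact Module.natCard_eq_pow_finrank
  letI : Field (𝓞 K ⧸ RingHom.ker ψ) := Ideal.Quotient.field _
  letI : Fintype (𝓞 K ⧸ RingHom.ker ψ) := Fintype.ofFinite _
  have h2 : (Ideal.Quotient.mk (RingHom.ker ψ) x) ^
      Nat.card (𝓞 F ⧸ RingHom.ker w) ^ (RingHom.ker ψ).inertiaDeg (𝓞 F) =
      Ideal.Quotient.mk (RingHom.ker ψ) x := by
    rw [← hcard, Nat.card_eq_fintype_card]
    exact FiniteField.pow_card _
  rw [← map_pow, Ideal.Quotient.eq] at h2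
  rw [← map_pow, ← sub_eq_zero, ← map_sub]
  exact h2

end

section

variable {F K : Type*} [Field F] [NumberField F] [Field K] [NumberField K] [Algebra F K]
  {p : ℕ} [Fact p.Prime] {Ω : Type*} [Field Ω] [CharP Ω p]

/-- relative local degree and relative residue degree -/
noncomputable def degR (F : Type*) {K : Type*} [Field F] [NumberField F] [Field K] [NumberField K]
    [Algebra F K] (v : HeightOneSpectrum (𝓞 K)) : ℕ × ℕ :=
  (v.asIdeal.ramificationIdx (𝓞 F) * v.asIdeal.inertiaDeg (𝓞 F), v.asIdeal.inertiaDeg (𝓞 F))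

omit [NumberField F] [NumberField K] in
theorem s3_of_s3st {α Ω : Type*} [Field Ω] {T : α → Ω} (h : S3St T) : H52FD.S3 T := by
  obtain ⟨σ, hσ⟩ := h.inv'
  exact ⟨⟨σ, fun v => by rw [hσ, inv_mul_cancel₀ (h.ne0 v)]⟩, h.sub'⟩

/-- the splitting for a relative family -/
theorem core_splits [IsAlgClosed Ω] (hp5 : 5 ≤ p) (hd : Module.finrank ℚ K < p) {w : 𝓞 F →+* Ω}
    {ψ : Fin (Module.finrank F K) → (𝓞 K →+* Ω)} (hψ : RelFam w ψ) {a b c : 𝓞 K}
    (h : FSol K p a b c)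
    (hS3 : H52FD.S3 (fun i : {i // ψ i a ≠ 0 ∧ ψ i b ≠ 0 ∧ ψ i c ≠ 0} => -(ψ i.1 b) / ψ i.1 a))
    (S : Finset (HeightOneSpectrum (𝓞 K)))
    (hS : ∀ v, v ∈ S ↔ v.asIdeal.under (𝓞 F) = RingHom.ker w ∧ a ∉ v.asIdeal ∧ b ∉ v.asIdeal ∧
      c ∉ v.asIdeal) :
    Splits (Nat.card (𝓞 F ⧸ RingHom.ker w) % 3) (p ^ 2 ∣ 2 ^ (p - 1) - 1) (S.val.map (degR F)) := by
  classical
  have hpp : p.Prime := Fact.out
  set q := Nat.card (𝓞 F ⧸ RingHom.ker w) with hqdef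
  have hq : q = p ^ (RingHom.ker w).inertiaDeg ℤ :=
    ((H52FD.prime_data (p := p) _ (RingHom.ker_isPrime w) (H52FD.p_mem_ker w)).2.2.2.2.2).symm
  have hodd : ∀ k : ℕ, Odd (q ^ k) := by
    intro k
    apply Odd.pow
    rw [hq]
    apply Odd.pow
    rcases hpp.eq_two_or_odd' with h | h
    · omega
    · exact h
  have hne : ∀ i : Fin (Module.finrank F K), RingHom.ker (ψ i) ≠ ⊥ := fun i =>
    (H52FD.prime_data (p := p) _ (RingHom.ker_isPrime (ψ i)) (H52FD.p_mem_ker _)).1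
  let κ : {i // ψ i a ≠ 0 ∧ ψ i b ≠ 0 ∧ ψ i c ≠ 0} → {v // v ∈ S} := fun i =>
    ⟨⟨RingHom.ker (ψ i.1), RingHom.ker_isPrime _, hne i.1⟩, (hS _).2 ⟨under_ker hψ i.1, i.2⟩⟩
  have hκ0 : ∀ i, (κ i).1.asIdeal = RingHom.ker (ψ i.1) := fun i => rfl
  have hκ1 : ∀ i P, κ i = P ↔ RingHom.ker (ψ i.1) = P.1.asIdeal := by
    intro i P
    rw [← hκ0 i]
    constructor
    · rintro rfl
      rfl
    · intro h
      exact Subtype.ext (HeightOneSpectrum.ext h)
  have hZ : ∀ (P : {v // v ∈ S}) (i : Fin (Module.finrank F K)),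
      RingHom.ker (ψ i) = P.1.asIdeal → ψ i a ≠ 0 ∧ ψ i b ≠ 0 ∧ ψ i c ≠ 0 := by
    intro P i hi
    obtain ⟨-, ha, hb, hc⟩ := (hS P.1).1 P.2
    rw [← hi] at ha hb hc
    exact ⟨ha, hb, hc⟩
  have hker : ∀ P : {v // v ∈ S}, Nat.card {i // RingHom.ker (ψ i) = P.1.asIdeal} =
      P.1.asIdeal.ramificationIdx (𝓞 F) * P.1.asIdeal.inertiaDeg (𝓞 F) := fun P =>
    card_ker_rel F K p w ψ hψ.form P.1.asIdeal P.1.isPrime ((hS P.1).1 P.2).1
  have hpos : ∀ v : HeightOneSpectrum (𝓞 K), 0 < v.asIdeal.ramificationIdx (𝓞 F) ∧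
      0 < v.asIdeal.inertiaDeg (𝓞 F) := by
    intro v
    have := v.isPrime
    exact ⟨Ideal.ramificationIdx_pos v.asIdeal (𝓞 F), Ideal.inertiaDeg_pos v.asIdeal (𝓞 F)⟩
  have hκ : Function.Surjective κ := by
    intro P
    have h1 : 0 < Nat.card {i // RingHom.ker (ψ i) = P.1.asIdeal} := by
      rw [hker]
      exact Nat.mul_pos (hpos P.1).1 (hpos P.1).2
    obtain ⟨⟨i0, hi0⟩⟩ := (Nat.card_pos_iff.1 h1).1
    exact ⟨⟨i0, hZ P i0 hi0⟩, (hκ1 _ _).2 hi0⟩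
  have hcard : ∀ P : {v // v ∈ S}, Nat.card {i // κ i = P} =
      P.1.asIdeal.ramificationIdx (𝓞 F) * P.1.asIdeal.inertiaDeg (𝓞 F) := by
    intro P
    rw [← hker P]
    exact Nat.card_congr
      { toFun := fun i => ⟨i.1.1, (hκ1 _ _).1 i.2⟩
        invFun := fun i => ⟨⟨i.1, hZ P i.1 i.2⟩, (hκ1 _ _).2 i.2⟩
        left_inv := fun i => rfl
        right_inv := fun i => rfl }
  have key := splits_of_S3_q (p := p) (q := q) (f := fun P => P.1.asIdeal.inertiaDeg (𝓞 F)) hp5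
    ⟨_, hq⟩ hS3 hκ ?_ ?_ ?_ (W := p ^ 2 ∣ 2 ^ (p - 1) - 1) ?_
  · have h1 : (Finset.univ : Finset {v // v ∈ S}).val.map (fun P =>
        (Nat.card {i // κ i = P}, P.1.asIdeal.inertiaDeg (𝓞 F))) = S.val.map (degR F) := by
      have h2 : (fun P : {v // v ∈ S} => (Nat.card {i // κ i = P}, P.1.asIdeal.inertiaDeg (𝓞 F))) =
          fun P => degR F P.1 := by
        funext P
        rw [hcard]
        rfl
      rw [h2, Finset.univ_eq_attach, Finset.attach_val]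
      exact Multiset.attach_map_val' S.val (degR F)
    rw [← h1]
    exact key
  · intro i j hij
    obtain ⟨k, hk⟩ := frob_conj_rel p w (ψ i.1) (ψ j.1) (hψ.lies _) (hψ.lies _) (by
      rw [← hκ0, ← hκ0, hij])
    refine ⟨k, ?_⟩
    show -(ψ j.1 b) / ψ j.1 a = (-(ψ i.1 b) / ψ i.1 a) ^ q ^ k
    rw [div_pow, (hodd k).neg_pow, hk, hk]
  · intro i
    show (-(ψ i.1 b) / ψ i.1 a) ^ q ^ ((κ i).1.asIdeal.inertiaDeg (𝓞 F)) = -(ψ i.1 b) / ψ i.1 a
    rw [div_pow, (hodd _).neg_pow, hκ0, pow_inertia_rel p w _ (hψ.lies _),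
      pow_inertia_rel p w _ (hψ.lies _)]
  · intro P
    exact (hpos P.1).2
  · rintro ⟨i, hi⟩
    by_contra hW
    have h3 : -(ψ i.1 b) / ψ i.1 a = -1 := hi
    rw [div_eq_iff i.2.1] at h3
    exact cm_one (by omega) hd h hW (ψ i.1) i.2.1 (by linear_combination h3)

end

/-- **The relative splitting criterion.**  `w` a prime of `F` above `p`, `S` the set of the primes of `K`
above `w` at which `a, b, c` have the same valuation. -/
theorem rel_splits (F : Type*) [Field F] [NumberField F] (K : Type*) [Field K] [NumberField K]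
    [Algebra F K] (p : ℕ) [Fact p.Prime] (hp5 : 5 ≤ p) (hd : Module.finrank ℚ K < p)
    (hS : SymFK F K p) (a b c : K) (ha : a ≠ 0) (hb : b ≠ 0) (hc : c ≠ 0)
    (h : a ^ p + b ^ p + c ^ p = 0) (w : HeightOneSpectrum (𝓞 F)) (hw : (p : 𝓞 F) ∈ w.asIdeal)
    (S : Finset (HeightOneSpectrum (𝓞 K)))
    (hSv : ∀ v, v ∈ S ↔ v.asIdeal.under (𝓞 F) = w.asIdeal ∧ H55AB.EqAt v a b c) :
    Splits (Nat.card (𝓞 F ⧸ w.asIdeal) % 3) (p ^ 2 ∣ 2 ^ (p - 1) - 1) (S.val.map (degR F)) := by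
  classical
  obtain ⟨l, a', b', c', hl, ea, eb, ec, hF, hcp, hall⟩ := H3AB.scale_mixed ha hb hc h
  obtain ⟨w', hker⟩ := H3AB.exists_hom_ker p (AlgebraicClosure (ZMod p)) w.asIdeal w.isPrime hw
  obtain ⟨ψ, hψ⟩ := exists_rel F K (AlgebraicClosure (ZMod p)) w'
  have hT := s3_of_s3st (s3_fam hψ hF hcp (hS a' b' c' hF hcp w'))
  let e : {i // ψ i a' ≠ 0 ∧ ψ i b' ≠ 0 ∧ ψ i c' ≠ 0} ≃ GI ψ a' b' :=
    Equiv.subtypeEquivRight fun i => (good_iff hF i).symm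
  have hT' := hT.comp e
  rw [← hker]
  refine core_splits hp5 hd hψ hF hT' S fun v => ?_
  rw [hSv v, hker]
  constructor
  · rintro ⟨h1, h2⟩
    exact ⟨h1, (hall v (p_mem_of_under h1 hw)).1 h2⟩
  · rintro ⟨h1, h2⟩
    exact ⟨h1, (hall v (p_mem_of_under h1 hw)).2 h2⟩

/-- the same from the symmetry of project AB -/
theorem sym_splits (F : Type*) [Field F] [NumberField F] (K : Type*) [Field K] [NumberField K]
    [Algebra F K] (p : ℕ) [Fact p.Prime] (hp5 : 5 ≤ p) (hd : Module.finrank ℚ K < p)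
    (hS : H29AB.SymF F K p) (a b c : K) (ha : a ≠ 0) (hb : b ≠ 0) (hc : c ≠ 0)
    (h : a ^ p + b ^ p + c ^ p = 0) (u : HeightOneSpectrum (𝓞 F)) (hu : (p : 𝓞 F) ∈ u.asIdeal)
    (S : Finset (HeightOneSpectrum (𝓞 K)))
    (hSv : ∀ v, v ∈ S ↔ v.asIdeal.LiesOver u.asIdeal ∧ H29AB.EqAt v a b c) :
    Splits (Nat.card (𝓞 F ⧸ u.asIdeal) % 3) (p ^ 2 ∣ 2 ^ (p - 1) - 1) (S.val.map (degR F)) := by
  classical
  obtain ⟨l, a', b', c', hl, ea, eb, ec, hF, hcp, hall⟩ := H3AB.scale_mixed ha hb hc h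
  obtain ⟨w', hker⟩ := H3AB.exists_hom_ker p (AlgebraicClosure (ZMod p)) u.asIdeal u.isPrime hu
  obtain ⟨ψ, hψ⟩ := exists_rel F K (AlgebraicClosure (ZMod p)) w'
  have hT := s3_of_s3st (hS a' b' c' hF hcp (AlgebraicClosure (ZMod p)) w' ψ ⟨hψ.lies, hψ.form⟩)
  rw [← hker]
  refine core_splits hp5 hd hψ hF hT S fun v => ?_
  have hl : v.asIdeal.LiesOver u.asIdeal ↔ v.asIdeal.under (𝓞 F) = RingHom.ker w' := by
    rw [Ideal.liesOver_iff, hker, eq_comm]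
  rw [hSv v, hl]
  constructor
  · rintro ⟨h1, h2⟩
    exact ⟨h1, (hall v (p_mem_of_under (h1.trans hker) hu)).1 h2⟩
  · rintro ⟨h1, h2⟩
    exact ⟨h1, (hall v (p_mem_of_under (h1.trans hker) hu)).2 h2⟩

end H31AB
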