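import Pool.Agent.H31.AB.AdmR
import Pool.Agent.H85.FD.Parts

/-!
# The partition criterion (explicit form), relative to a real abelian field
-/

open Polynomial NumberField IsDedekindDomain H9FC H9AB

namespace H31AB

open H85FD H55AB

/-- change of the elements -/
theorem split4_map {α β : Type*} {wt f : α → ℕ} {cub : α → Prop} {r : ℕ} {W : Prop}
    {M E M6 M3 M2 : Multiset α} (h : Split4 wt f cub r W M E M6 M3 M2) (g : α → β) {wt' f' : β → ℕ}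
    {cub' : β → Prop} (hwt : ∀ a, wt' (g a) = wt a) (hf : ∀ a, f' (g a) = f a)
    (hc : ∀ a, cub' (g a) ↔ cub a) :
    Split4 wt' f' cub' r W (M.map g) (E.map g) (M6.map g) (M3.map g) (M2.map g) := by
  refine ⟨by rw [h.eq]; simp only [Multiset.map_add], fun v hv => ?_, fun v hv => ?_,
    fun hr v hv => ?_, fun hr => (h.two hr).map g hwt, h.p6.map g hwt, h.p3.map g hwt, ?_,
    h.p2.map g hwt, fun v hv => ?_⟩
  · obtain ⟨a, ha, rfl⟩ := Multiset.mem_map.1 hv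
    exact (hc a).2 (h.cubE a ha)
  · rw [← Multiset.map_add, ← Multiset.map_add] at hv
    obtain ⟨a, ha, rfl⟩ := Multiset.mem_map.1 hv
    rw [hc]
    exact h.cubN a ha
  · obtain ⟨a, ha, rfl⟩ := Multiset.mem_map.1 hv
    rw [hf]
    exact h.even hr a ha
  · rcases h.e3 with h1 | h1
    · exact Or.inl h1
    · right
      intro v hv
      obtain ⟨a, ha, rfl⟩ := Multiset.mem_map.1 hv
      rw [hf]
      exact h1 a ha
  · obtain ⟨a, ha, rfl⟩ := Multiset.mem_map.1 hv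
    rw [hf]
    exact h.d2 a ha

section

variable {F K : Type*} [Field F] [NumberField F] [Field K] [NumberField K] [Algebra F K]
  {p : ℕ} [Fact p.Prime] {Ω : Type*} [Field Ω] [CharP Ω p]

/-- the partition for a relative family -/
theorem core_parts [IsAlgClosed Ω] (hp5 : 5 ≤ p) (hd : Module.finrank ℚ K < p) {w : 𝓞 F →+* Ω}
    {ψ : Fin (Module.finrank F K) → (𝓞 K →+* Ω)} (hψ : RelFam w ψ) {a b c : 𝓞 K}
    (h : FSol K p a b c)
    (hS3 : H52FD.S3 (fun i : {i // ψ i a ≠ 0 ∧ ψ i b ≠ 0 ∧ ψ i c ≠ 0} => -(ψ i.1 b) / ψ i.1 a))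
    (S : Finset (HeightOneSpectrum (𝓞 K)))
    (hS : ∀ v, v ∈ S ↔ v.asIdeal.under (𝓞 F) = RingHom.ker w ∧ a ∉ v.asIdeal ∧ b ∉ v.asIdeal ∧
      c ∉ v.asIdeal) {cub : HeightOneSpectrum (𝓞 K) → Prop}
    (hcub : ∀ v ∈ S, cub v ↔ a ^ 2 + a * b + b ^ 2 ∈ v.asIdeal) :
    ∃ E M6 M3 M2, Split4 (fun v : HeightOneSpectrum (𝓞 K) =>
      v.asIdeal.ramificationIdx (𝓞 F) * v.asIdeal.inertiaDeg (𝓞 F))
      (fun v => v.asIdeal.inertiaDeg (𝓞 F)) cub (Nat.card (𝓞 F ⧸ RingHom.ker w) % 3)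
      (p ^ 2 ∣ 2 ^ (p - 1) - 1) S.val E M6 M3 M2 := by
  classical
  have hpp : p.Prime := Fact.out
  set q := Nat.card (𝓞 F ⧸ RingHom.ker w) with hqdef
  have hq : q = p ^ (RingHom.ker w).inertiaDeg ℤ :=
    ((H52FD.prime_data (p := p) _ (RingHom.ker_isPrime w) (H52FD.p_mem_ker w)).2.2.2.2.2).symm
  have hodd : ∀ k : ℕ, Odd (q ^ k) := by
    intro k
    apply Odd.pow
    rw [hq]
    apply Odd.pow
    rcases hpp.eq_two_or_odd' with h | h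
    · omega
    · exact h
  have hne : ∀ i : Fin (Module.finrank F K), RingHom.ker (ψ i) ≠ ⊥ := fun i =>
    (H52FD.prime_data (p := p) _ (RingHom.ker_isPrime (ψ i)) (H52FD.p_mem_ker _)).1
  let κ : {i // ψ i a ≠ 0 ∧ ψ i b ≠ 0 ∧ ψ i c ≠ 0} → {v // v ∈ S} := fun i =>
    ⟨⟨RingHom.ker (ψ i.1), RingHom.ker_isPrime _, hne i.1⟩, (hS _).2 ⟨under_ker hψ i.1, i.2⟩⟩
  have hκ0 : ∀ i, (κ i).1.asIdeal = RingHom.ker (ψ i.1) := fun i => rfl
  have hκ1 : ∀ i P, κ i = P ↔ RingHom.ker (ψ i.1) = P.1.asIdeal := by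
    intro i P
    rw [← hκ0 i]
    constructor
    · rintro rfl
      rfl
    · intro h
      exact Subtype.ext (HeightOneSpectrum.ext h)
  have hZ : ∀ (P : {v // v ∈ S}) (i : Fin (Module.finrank F K)),
      RingHom.ker (ψ i) = P.1.asIdeal → ψ i a ≠ 0 ∧ ψ i b ≠ 0 ∧ ψ i c ≠ 0 := by
    intro P i hi
    obtain ⟨-, ha, hb, hc⟩ := (hS P.1).1 P.2
    rw [← hi] at ha hb hc
    exact ⟨ha, hb, hc⟩
  have hker : ∀ P : {v // v ∈ S}, Nat.card {i // RingHom.ker (ψ i) = P.1.asIdeal} =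
      P.1.asIdeal.ramificationIdx (𝓞 F) * P.1.asIdeal.inertiaDeg (𝓞 F) := fun P =>
    card_ker_rel F K p w ψ hψ.form P.1.asIdeal P.1.isPrime ((hS P.1).1 P.2).1
  have hpos : ∀ v : HeightOneSpectrum (𝓞 K), 0 < v.asIdeal.ramificationIdx (𝓞 F) ∧
      0 < v.asIdeal.inertiaDeg (𝓞 F) := by
    intro v
    have := v.isPrime
    exact ⟨Ideal.ramificationIdx_pos v.asIdeal (𝓞 F), Ideal.inertiaDeg_pos v.asIdeal (𝓞 F)⟩
  have hκ : Function.Surjective κ := by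
    intro P
    have h1 : 0 < Nat.card {i // RingHom.ker (ψ i) = P.1.asIdeal} := by
      rw [hker]
      exact Nat.mul_pos (hpos P.1).1 (hpos P.1).2
    obtain ⟨⟨i0, hi0⟩⟩ := (Nat.card_pos_iff.1 h1).1
    exact ⟨⟨i0, hZ P i0 hi0⟩, (hκ1 _ _).2 hi0⟩
  have hcard : ∀ P : {v // v ∈ S}, Nat.card {i // κ i = P} =
      P.1.asIdeal.ramificationIdx (𝓞 F) * P.1.asIdeal.inertiaDeg (𝓞 F) := by
    intro P
    rw [← hker P]
    exact Nat.card_congr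
      { toFun := fun i => ⟨i.1.1, (hκ1 _ _).1 i.2⟩
        invFun := fun i => ⟨⟨i.1, hZ P i.1 i.2⟩, (hκ1 _ _).2 i.2⟩
        left_inv := fun i => rfl
        right_inv := fun i => rfl }
  have key := parts_of_S3 (p := p) (q := q) (f := fun P => P.1.asIdeal.inertiaDeg (𝓞 F)) hp5
    ⟨_, hq⟩ hS3 hκ ?_ ?_ ?_ (cub := fun P => cub P.1) ?_ (W := p ^ 2 ∣ 2 ^ (p - 1) - 1) ?_
  · obtain ⟨E, M6, M3, M2, hE⟩ := key
    refine ⟨E.map Subtype.val, M6.map Subtype.val, M3.map Subtype.val, M2.map Subtype.val, ?_⟩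
    have h1 : (Finset.univ : Finset {v // v ∈ S}).val.map Subtype.val = S.val := by
      rw [Finset.univ_eq_attach, Finset.attach_val]
      exact Multiset.attach_map_val S.val
    rw [← h1]
    exact split4_map hE Subtype.val (fun P => (hcard P).symm) (fun P => rfl) (fun P => Iff.rfl)
  · intro i j hij
    obtain ⟨k, hk⟩ := frob_conj_rel p w (ψ i.1) (ψ j.1) (hψ.lies _) (hψ.lies _) (by
      rw [← hκ0, ← hκ0, hij])
    refine ⟨k, ?_⟩
    show -(ψ j.1 b) / ψ j.1 a = (-(ψ i.1 b) / ψ i.1 a) ^ q ^ k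
    rw [div_pow, (hodd k).neg_pow, hk, hk]
  · intro i
    show (-(ψ i.1 b) / ψ i.1 a) ^ q ^ ((κ i).1.asIdeal.inertiaDeg (𝓞 F)) = -(ψ i.1 b) / ψ i.1 a
    rw [div_pow, (hodd _).neg_pow, hκ0, pow_inertia_rel p w _ (hψ.lies _),
      pow_inertia_rel p w _ (hψ.lies _)]
  · intro P
    exact (hpos P.1).2
  · intro i
    have h1 : cub (κ i).1 ↔ ψ i.1 (a ^ 2 + a * b + b ^ 2) = 0 := hcub _ (κ i).2
    have h2 : (-(ψ i.1 b) / ψ i.1 a) ^ 2 - -(ψ i.1 b) / ψ i.1 a + 1 =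
        ψ i.1 (a ^ 2 + a * b + b ^ 2) / ψ i.1 a ^ 2 := by
      have := i.2.1
      simp only [map_add, map_mul, map_pow]
      field_simp
      ring
    show cub (κ i).1 ↔ (-(ψ i.1 b) / ψ i.1 a) ^ 2 - -(ψ i.1 b) / ψ i.1 a + 1 = 0
    rw [h1, h2, div_eq_zero_iff]
    exact ⟨Or.inl, fun h3 => h3.resolve_right (pow_ne_zero 2 i.2.1)⟩
  · rintro ⟨i, hi⟩
    by_contra hW
    have h3 : -(ψ i.1 b) / ψ i.1 a = -1 := hi
    rw [div_eq_iff i.2.1] at h3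
    exact cm_one (by omega) hd h hW (ψ i.1) i.2.1 (by linear_combination h3)

/-- scaling and the cubic condition, both directions -/
theorem cub_iff_iff {l a b : K} {a' b' : 𝓞 K} (hl : l ≠ 0) (ea : (a' : K) = l * a)
    (eb : (b' : K) = l * b) {v : HeightOneSpectrum (𝓞 K)} (ha : a' ∉ v.asIdeal) :
    v.valuation K (a ^ 2 + a * b + b ^ 2) < v.valuation K (a ^ 2) ↔
      a' ^ 2 + a' * b' + b' ^ 2 ∈ v.asIdeal := by
  refine ⟨fun h => ?_, fun h => cub_iff hl ea eb ha h⟩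
  rw [← HeightOneSpectrum.valuation_lt_one_iff_mem (K := K) v]
  have h2 : ((a' ^ 2 + a' * b' + b' ^ 2 : 𝓞 K) : K) = l ^ 2 * (a ^ 2 + a * b + b ^ 2) := by
    simp only [map_add, map_mul, map_pow, ea, eb]
    ring
  have h3 : v.valuation K (l ^ 2 * a ^ 2) ≤ 1 := by
    have h4 : l ^ 2 * a ^ 2 = ((a' ^ 2 : 𝓞 K) : K) := by
      simp only [map_pow, ea]
      ring
    rw [h4]
    exact v.valuation_le_one (K := K) (a' ^ 2)
  have h5 : v.valuation K (l ^ 2) ≠ 0 := by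
    rw [(v.valuation K).ne_zero_iff]
    exact pow_ne_zero 2 hl
  show v.valuation K ((a' ^ 2 + a' * b' + b' ^ 2 : 𝓞 K) : K) < 1
  rw [h2, map_mul]
  rw [map_mul] at h3
  exact lt_of_lt_of_le (mul_lt_mul_of_pos_left h (zero_lt_iff.2 h5)) h3

end

/-- **The relative partition criterion.**  `w` a prime of `F` above `p`, `S` the set of the primes of `K`
above `w` at which `a, b, c` have the same valuation. -/
theorem rel_parts (F : Type*) [Field F] [NumberField F] (K : Type*) [Field K] [NumberField K]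
    [Algebra F K] (p : ℕ) [Fact p.Prime] (hp5 : 5 ≤ p) (hd : Module.finrank ℚ K < p)
    (hS : SymFK F K p) (a b c : K) (ha : a ≠ 0) (hb : b ≠ 0) (hc : c ≠ 0)
    (h : a ^ p + b ^ p + c ^ p = 0) (w : HeightOneSpectrum (𝓞 F)) (hw : (p : 𝓞 F) ∈ w.asIdeal)
    (S : Finset (HeightOneSpectrum (𝓞 K)))
    (hSv : ∀ v, v ∈ S ↔ v.asIdeal.under (𝓞 F) = w.asIdeal ∧ H55AB.EqAt v a b c) :
    ∃ E M6 M3 M2, Split4 (fun v : HeightOneSpectrum (𝓞 K) =>
      v.asIdeal.ramificationIdx (𝓞 F) * v.asIdeal.inertiaDeg (𝓞 F))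
      (fun v => v.asIdeal.inertiaDeg (𝓞 F)) (fun v => H55AB.CubAt v a b c)
      (Nat.card (𝓞 F ⧸ w.asIdeal) % 3) (p ^ 2 ∣ 2 ^ (p - 1) - 1) S.val E M6 M3 M2 := by
  classical
  obtain ⟨l, a', b', c', hl, ea, eb, ec, hF, hcp, hall⟩ := H3AB.scale_mixed ha hb hc h
  obtain ⟨w', hker⟩ := H3AB.exists_hom_ker p (AlgebraicClosure (ZMod p)) w.asIdeal w.isPrime hw
  obtain ⟨ψ, hψ⟩ := exists_rel F K (AlgebraicClosure (ZMod p)) w'
  have hT := s3_of_s3st (s3_fam hψ hF hcp (hS a' b' c' hF hcp w'))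
  let e : {i // ψ i a' ≠ 0 ∧ ψ i b' ≠ 0 ∧ ψ i c' ≠ 0} ≃ GI ψ a' b' :=
    Equiv.subtypeEquivRight fun i => (good_iff hF i).symm
  have hT' := hT.comp e
  rw [← hker]
  have hSv' : ∀ v, v ∈ S ↔ v.asIdeal.under (𝓞 F) = RingHom.ker w' ∧ a' ∉ v.asIdeal ∧
      b' ∉ v.asIdeal ∧ c' ∉ v.asIdeal := by
    intro v
    rw [hSv v, hker]
    constructor
    · rintro ⟨h1, h2⟩
      exact ⟨h1, (hall v (p_mem_of_under h1 hw)).1 h2⟩
    · rintro ⟨h1, h2⟩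
      exact ⟨h1, (hall v (p_mem_of_under h1 hw)).2 h2⟩
  refine core_parts hp5 hd hψ hF hT' S hSv' fun v hv => ?_
  rw [← cub_iff_iff hl ea eb ((hSv' v).1 hv).2.1]
  exact ⟨fun h1 => h1.2, fun h1 => ⟨((hSv v).1 hv).2, h1⟩⟩

/-- the same from the symmetry of project AB -/
theorem sym_parts (F : Type*) [Field F] [NumberField F] (K : Type*) [Field K] [NumberField K]
    [Algebra F K] (p : ℕ) [Fact p.Prime] (hp5 : 5 ≤ p) (hd : Module.finrank ℚ K < p)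
    (hS : H29AB.SymF F K p) (a b c : K) (ha : a ≠ 0) (hb : b ≠ 0) (hc : c ≠ 0)
    (h : a ^ p + b ^ p + c ^ p = 0) (u : HeightOneSpectrum (𝓞 F)) (hu : (p : 𝓞 F) ∈ u.asIdeal)
    (S : Finset (HeightOneSpectrum (𝓞 K)))
    (hSv : ∀ v, v ∈ S ↔ v.asIdeal.LiesOver u.asIdeal ∧ H29AB.EqAt v a b c) :
    ∃ E M6 M3 M2, Split4 (fun v : HeightOneSpectrum (𝓞 K) =>
      v.asIdeal.ramificationIdx (𝓞 F) * v.asIdeal.inertiaDeg (𝓞 F))
      (fun v => v.asIdeal.inertiaDeg (𝓞 F)) (fun v => H29AB.CubAt v a b c)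
      (Nat.card (𝓞 F ⧸ u.asIdeal) % 3) (p ^ 2 ∣ 2 ^ (p - 1) - 1) S.val E M6 M3 M2 := by
  classical
  obtain ⟨l, a', b', c', hl, ea, eb, ec, hF, hcp, hall⟩ := H3AB.scale_mixed ha hb hc h
  obtain ⟨w', hker⟩ := H3AB.exists_hom_ker p (AlgebraicClosure (ZMod p)) u.asIdeal u.isPrime hu
  obtain ⟨ψ, hψ⟩ := exists_rel F K (AlgebraicClosure (ZMod p)) w'
  have hT := s3_of_s3st (hS a' b' c' hF hcp (AlgebraicClosure (ZMod p)) w' ψ ⟨hψ.lies, hψ.form⟩)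
  rw [← hker]
  have hSv' : ∀ v, v ∈ S ↔ v.asIdeal.under (𝓞 F) = RingHom.ker w' ∧ a' ∉ v.asIdeal ∧
      b' ∉ v.asIdeal ∧ c' ∉ v.asIdeal := by
    intro v
    have hl : v.asIdeal.LiesOver u.asIdeal ↔ v.asIdeal.under (𝓞 F) = RingHom.ker w' := by
      rw [Ideal.liesOver_iff, hker, eq_comm]
    rw [hSv v, hl]
    constructor
    · rintro ⟨h1, h2⟩
      exact ⟨h1, (hall v (p_mem_of_under (h1.trans hker) hu)).1 h2⟩
    · rintro ⟨h1, h2⟩
      exact ⟨h1, (hall v (p_mem_of_under (h1.trans hker) hu)).2 h2⟩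
  refine core_parts hp5 hd hψ hF hT S hSv' fun v hv => ?_
  rw [← cub_iff_iff hl ea eb ((hSv' v).1 hv).2.1]
  exact ⟨fun h1 => h1.2, fun h1 => ⟨((hSv v).1 hv).2, h1⟩⟩

end H31AB
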